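import Pool.Agent.H474R2.LP.Sift

/-!
# Distribution of least primes in progressions, part 2: equidistribution (helper474)
-/

set_option autoImplicit false

open Finset Filter

namespace Pool.Agent.H474R2.LP

open Pool.Agent.H410R2.AC Pool.Agent.H410R2.EN Pool.Agent.H747R2.EN6

/-- local densities of the integers prime to `q` -/
noncomputable def kap (q p c : ℕ) : ℝ :=
  if p ∣ q then (if c = 0 then 0 else 1 / ((p : ℝ) - 1)) else 1 / (p : ℝ)

/-- the exceptional class -/
def ee (q p : ℕ) : ℕ := if p ∣ q then 0 else p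

/-- the class of the position `k` -/
def rr (q p k : ℕ) : ℕ := if p ∣ q then 0 else ((-((k : ℤ) * q)) % (p : ℤ)).toNat

/-- the weight: reduced residues in a class modulo the primorial -/
noncomputable def ww (q H b n : ℕ) : ℝ := if n % primorial H = b ∧ Nat.Coprime n q then 1 else 0

lemma dens (q H z : ℕ) : Dens (kap q) (ee q) (PP H z) := by
  intro p hp c hc
  have h2 : (2 : ℝ) ≤ p := by exact_mod_cast (PP_prime hp).two_le
  have h3 : (0 : ℝ) < (p : ℝ) - 1 := by linarith
  unfold kap ee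
  split_ifs with h1 h4
  · refine ⟨le_rfl, by positivity, ?_⟩
    intro h
    exact absurd h4 h
  · refine ⟨by positivity, le_rfl, fun _ => ?_⟩
    have e1 : 1 / ((p : ℝ) - 1) - 1 / (p : ℝ) = 1 / ((p : ℝ) * ((p : ℝ) - 1)) := by
      field_simp
      ring
    rw [e1, abs_of_nonneg (by positivity)]
    apply one_div_le_one_div_of_le (by positivity)
    nlinarith
  · refine ⟨by positivity, ?_, fun _ => ?_⟩
    · apply one_div_le_one_div_of_le <;> linarith
    · rw [sub_self, abs_zero]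
      positivity

lemma coprime_iff (q n : ℕ) (hq : 0 < q) :
    Nat.Coprime n q ↔ ∀ p ∈ q.primeFactors, ¬ p ∣ n := by
  constructor
  · intro h p hp hd
    have h1 := Nat.prime_of_mem_primeFactors hp
    have h2 := Nat.dvd_gcd hd (Nat.dvd_of_mem_primeFactors hp)
    rw [h] at h2
    exact h1.one_lt.ne' (Nat.dvd_one.1 h2)
  · intro h
    by_contra hc
    obtain ⟨p, hp, hpd⟩ := Nat.exists_prime_and_dvd hc
    exact h p (Nat.mem_primeFactors.2 ⟨hp, hpd.trans (Nat.gcd_dvd_right _ _), hq.ne'⟩)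
      (hpd.trans (Nat.gcd_dvd_left _ _))

lemma not_dvd_primorial {H z p : ℕ} (hp : p ∈ PP H z) : ¬ p ∣ primorial H := by
  intro hpQ
  have := Pool.Agent.H143R2.ACF.prime_dvd_primorial (PP_prime hp) hpQ
  have := PP_gt hp
  omega

lemma equidQ (q H z D0 b : ℕ) (hq : 0 < q) (hb : b ∈ G0 q H) :
    Equid (kap q) (ww q H b) q (AA q H) (PP H z) D0 (fun _ => 2 ^ (DD q H).card) := by
  classical
  intro T hT _ c hc
  unfold G0 at hb
  rw [Finset.mem_filter, Finset.mem_range] at hb
  obtain ⟨hbQ, hb0⟩ := hb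
  have hQ0 : 0 < primorial H := primorial_pos _
  have hQ0' : (0 : ℝ) < primorial H := by exact_mod_cast hQ0
  show |∑ m ∈ (range q).filter (fun m => ∀ p ∈ T, m % p = c p), ww q H b m -
    AA q H * ∏ p ∈ T, kap q p (c p)| ≤ 2 ^ (DD q H).card
  by_cases hz : ∃ p ∈ T, p ∣ q ∧ c p = 0
  · obtain ⟨p, hpT, hpq, hcp⟩ := hz
    have e1 : ∑ m ∈ (range q).filter (fun m => ∀ p ∈ T, m % p = c p), ww q H b m = 0 := by
      refine Finset.sum_eq_zero fun m hm => ?_
      have h1 := (Finset.mem_filter.1 hm).2 p hpT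
      rw [hcp] at h1
      unfold ww
      rw [if_neg]
      rintro ⟨_, h2⟩
      rw [coprime_iff q m hq] at h2
      exact h2 p (Nat.mem_primeFactors.2 ⟨PP_prime (hT hpT), hpq, hq.ne'⟩)
        (Nat.dvd_of_mod_eq_zero h1)
    have e2 : ∏ p ∈ T, kap q p (c p) = 0 := by
      refine Finset.prod_eq_zero hpT ?_
      unfold kap
      rw [if_pos hpq, if_pos hcp]
    rw [e1, e2, mul_zero, sub_zero, abs_zero]
    positivity
  · push Not at hz
    obtain ⟨r, hr⟩ := crt (primorial H) b hbQ c T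
      (fun p hp => ⟨PP_prime (hT hp), not_dvd_primorial (hT hp), hc p hp⟩)
    have hprod : 0 < ∏ p ∈ T, p := Finset.prod_pos fun p hp => (PP_prime (hT hp)).pos
    have hprod' : (0 : ℝ) < ((∏ p ∈ T, p : ℕ) : ℝ) := by exact_mod_cast hprod
    have e1 : ∑ m ∈ (range q).filter (fun m => ∀ p ∈ T, m % p = c p), ww q H b m =
        (((range q).filter (fun n => n ≡ r [MOD primorial H * ∏ p ∈ T, p] ∧
          ∀ p ∈ DD q H \ T, ¬ p ∣ n)).card : ℝ) := by
      unfold ww
      rw [← Finset.sum_filter, Finset.filter_filter, Finset.sum_const, nsmul_eq_mul, mul_one]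
      congr 2
      refine Finset.filter_congr fun n _ => ?_
      rw [← hr n, coprime_iff q n hq]
      constructor
      · rintro ⟨a1, a2, a3⟩
        refine ⟨⟨a2, a1⟩, fun p hp => ?_⟩
        exact a3 p (Finset.mem_filter.1 (Finset.mem_sdiff.1 hp).1).1
      · rintro ⟨⟨a1, a2⟩, a3⟩
        refine ⟨a2, a1, fun p hp hpn => ?_⟩
        have hpp := Nat.prime_of_mem_primeFactors hp
        by_cases hpH : p ≤ H
        · have h1 : p ∣ primorial H := (Nat.Prime.dvd_primorial_iff hpp).2 hpH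
          have h2 : p ∣ b := by
            rw [← a1]
            exact (Nat.dvd_mod_iff h1).2 hpn
          exact hb0 p (Finset.mem_filter.2 ⟨hp, hpH⟩) h2
        · by_cases hpT : p ∈ T
          · have h1 := a2 p hpT
            rw [Nat.mod_eq_zero_of_dvd hpn] at h1
            exact hz p hpT (Nat.dvd_of_mem_primeFactors hp) h1.symm
          · exact a3 p (Finset.mem_sdiff.2 ⟨Finset.mem_filter.2 ⟨hp, by omega⟩, hpT⟩) hpn
    have e2 : AA q H * ∏ p ∈ T, kap q p (c p) =
        (q : ℝ) / ((primorial H * ∏ p ∈ T, p : ℕ) : ℝ) * ∏ p ∈ DD q H \ T, (1 - 1 / (p : ℝ)) := by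
      have h1 : ∏ p ∈ T, kap q p (c p) = (∏ p ∈ T, (1 / (p : ℝ))) *
          (∏ p ∈ DD q H ∩ T, (1 - 1 / (p : ℝ)))⁻¹ := by
        have h2 : DD q H ∩ T = T.filter (fun p => p ∣ q) := by
          ext p
          unfold DD
          rw [Finset.mem_inter, Finset.mem_filter, Finset.mem_filter, Nat.mem_primeFactors]
          constructor
          · rintro ⟨⟨⟨_, a2, _⟩, _⟩, a4⟩
            exact ⟨a4, a2⟩
          · rintro ⟨a4, a2⟩
            exact ⟨⟨⟨PP_prime (hT a4), a2, hq.ne'⟩, PP_gt (hT a4)⟩, a4⟩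
        rw [h2, ← Finset.prod_inv_distrib, Finset.prod_filter, ← Finset.prod_mul_distrib]
        refine Finset.prod_congr rfl fun p hp => ?_
        have h3 : (2 : ℝ) ≤ p := by exact_mod_cast (PP_prime (hT hp)).two_le
        have h4 : (p : ℝ) - 1 ≠ 0 := by linarith
        unfold kap
        split_ifs with h5 h6
        · exact absurd h6 (hz p hp h5)
        · field_simp
        · rw [mul_one]
      have h5 : VD q H = (∏ p ∈ DD q H \ T, (1 - 1 / (p : ℝ))) *
          ∏ p ∈ DD q H ∩ T, (1 - 1 / (p : ℝ)) := by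
        unfold VD
        rw [← Finset.prod_sdiff (Finset.inter_subset_left : DD q H ∩ T ⊆ DD q H)]
        congr 1
        refine Finset.prod_congr ?_ fun _ _ => rfl
        exact Finset.sdiff_inter_self_left _ _
      have h6 : ∏ p ∈ DD q H ∩ T, (1 - 1 / (p : ℝ)) ≠ 0 := by
        rw [Finset.prod_ne_zero_iff]
        intro p hp
        have h3 : (2 : ℝ) ≤ p := by
          exact_mod_cast (PP_prime (hT (Finset.mem_inter.1 hp).2)).two_le
        have h4 : 1 / (p : ℝ) ≤ 1 / 2 := one_div_le_one_div_of_le (by norm_num) h3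
        linarith
      have h7 : ∏ p ∈ T, (1 / (p : ℝ)) = 1 / ((∏ p ∈ T, p : ℕ) : ℝ) := by
        push_cast
        rw [Finset.prod_div_distrib, Finset.prod_const_one]
      unfold AA
      rw [h1, h5, h7]
      push_cast
      push_cast at hprod'
      field_simp
    rw [e1, e2]
    have h := sift q 1 (DD q H \ T) (primorial H * ∏ p ∈ T, p) r (Nat.mul_pos hQ0 hprod)
      (fun p hp => by
        rw [Finset.mem_sdiff] at hp
        have h1 := Nat.prime_of_mem_primeFactors (Finset.mem_filter.1 hp.1).1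
        have h2 := (Finset.mem_filter.1 hp.1).2
        refine ⟨h1, fun hd => ?_⟩
        rcases (Nat.Prime.dvd_mul h1).1 hd with h3 | h3
        · have := Pool.Agent.H143R2.ACF.prime_dvd_primorial h1 h3
          omega
        · rw [h1.prime.dvd_finsetProd_iff] at h3
          obtain ⟨p', hp', hpp'⟩ := h3
          rw [Nat.prime_dvd_prime_iff_eq h1 (PP_prime (hT hp'))] at hpp'
          exact hp.2 (hpp' ▸ hp')) (fun M' r' hM' => card_modEq q M' r' (by
        refine Nat.pos_of_dvd_of_pos hM' (Nat.mul_pos (Nat.mul_pos hQ0 hprod) ?_)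
        refine Finset.prod_pos fun p hp => ?_
        exact (Nat.prime_of_mem_primeFactors
          (Finset.mem_filter.1 (Finset.mem_sdiff.1 hp).1).1).pos))
    refine h.trans ?_
    rw [mul_one]
    exact pow_le_pow_right₀ (by norm_num) (Finset.card_le_card Finset.sdiff_subset)

lemma rr_lt {q p : ℕ} (hp : 0 < p) (k : ℕ) : rr q p k < p := by
  unfold rr
  split_ifs
  · exact hp
  · have h1 := Int.emod_nonneg (-((k : ℤ) * q)) (show (p : ℤ) ≠ 0 by omega)
    have h2 := Int.emod_lt_of_pos (-((k : ℤ) * q)) (show (0 : ℤ) < p by omega)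
    omega

lemma rr_iff {q p : ℕ} (hp : 0 < p) (hpq : ¬ p ∣ q) (m k : ℕ) :
    m % p = rr q p k ↔ p ∣ m + k * q := by
  unfold rr
  rw [if_neg hpq]
  have h1 := Int.emod_nonneg (-((k : ℤ) * q)) (show (p : ℤ) ≠ 0 by omega)
  have h3 : p ∣ m + k * q ↔ (p : ℤ) ∣ -((k : ℤ) * q) - m := by
    rw [← Int.natCast_dvd_natCast]
    push_cast
    rw [← dvd_neg]
    ring_nf
  rw [h3, ← Int.modEq_iff_dvd]
  unfold Int.ModEq
  have h2 : ((m % p : ℕ) : ℤ) = (m : ℤ) % (p : ℤ) := Int.natCast_mod m p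
  rw [← h2]
  omega

lemma rr_collision {q p : ℕ} (hp : p.Prime) (hpq : ¬ p ∣ q) {k k' : ℕ} (h : rr q p k = rr q p k') :
    p ∣ ((k : ℤ) - k').natAbs := by
  unfold rr at h
  rw [if_neg hpq, if_neg hpq] at h
  have h1 := Int.emod_nonneg (-((k : ℤ) * q)) (show (p : ℤ) ≠ 0 by have := hp.pos; omega)
  have h2 := Int.emod_nonneg (-((k' : ℤ) * q)) (show (p : ℤ) ≠ 0 by have := hp.pos; omega)
  have h3 : (-((k : ℤ) * q)) % (p : ℤ) = (-((k' : ℤ) * q)) % (p : ℤ) := by omega
  have h4 : (-((k : ℤ) * q)) ≡ (-((k' : ℤ) * q)) [ZMOD (p : ℤ)] := h3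
  rw [Int.modEq_iff_dvd] at h4
  have h5 : (p : ℤ) ∣ ((k : ℤ) - k') * q := by
    have h6 : -((k' : ℤ) * q) - -((k : ℤ) * q) = ((k : ℤ) - k') * q := by ring
    rwa [h6] at h4
  rcases (Nat.prime_iff_prime_int.1 hp).dvd_or_dvd h5 with h6 | h6
  · exact Int.natCast_dvd.1 h6
  · exact absurd (Int.natCast_dvd_natCast.1 h6) hpq

lemma dlQ_le {q z z' N K k0 : ℕ} (hq : 0 < q) (U : Finset ℕ) (hU : ∀ a ∈ U, k0 ≤ a ∧ a < k0 + N)
    (hUK : U.card ≤ K) (hz : 2 ≤ z) :
    dl (ee q) (rr q) (PP z z') U ≤ 2 / (z : ℝ) + ((K : ℝ) ^ 2 *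
      (Real.log (N : ℝ) / (z * Real.log z)) + Real.log q / (z * Real.log z)) := by
  unfold dl
  refine add_le_add (Pool.Agent.H647R2.ACNT.nt4 z z' (by omega)) ?_
  set t : ℝ := Real.log (N : ℝ) / (z * Real.log z) with ht
  have ht0 : 0 ≤ t := by
    have h1 : 0 ≤ Real.log (N : ℝ) := Real.log_natCast_nonneg _
    have h2 : 0 ≤ Real.log (z : ℝ) := Real.log_natCast_nonneg z
    positivity
  have hpos : ∀ p ∈ PP z z', (0 : ℝ) ≤ 1 / ((p : ℝ) - 1) := by
    intro p hp
    have h2 := (PP_prime hp).two_le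
    have : (2 : ℝ) ≤ p := by exact_mod_cast h2
    have : (0 : ℝ) < (p : ℝ) - 1 := by linarith
    positivity
  have hI : ∀ p ∈ PP z z', ∀ x : ℕ × ℕ, (0 : ℝ) ≤
      (if p ∣ ((x.1 : ℤ) - x.2).natAbs then 1 / ((p : ℝ) - 1) else 0) := by
    intro p hp x
    split_ifs
    · exact hpos p hp
    · exact le_rfl
  calc ∑ p ∈ (PP z z').filter (fun p => (∃ a ∈ U, ∃ b ∈ U, a ≠ b ∧ rr q p a = rr q p b) ∨
          ∃ a ∈ U, rr q p a = ee q p), 1 / ((p : ℝ) - 1)
      ≤ ∑ p ∈ PP z z', (∑ x ∈ (U ×ˢ U).filter (fun x => x.1 ≠ x.2),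
          (if p ∣ ((x.1 : ℤ) - x.2).natAbs then 1 / ((p : ℝ) - 1) else 0) +
          (if p ∣ q then 1 / ((p : ℝ) - 1) else 0)) := by
        rw [Finset.sum_filter]
        refine Finset.sum_le_sum (fun p hp => ?_)
        have hs : 0 ≤ ∑ x ∈ (U ×ˢ U).filter (fun x => x.1 ≠ x.2),
          (if p ∣ ((x.1 : ℤ) - x.2).natAbs then 1 / ((p : ℝ) - 1) else 0) :=
          Finset.sum_nonneg (fun x _ => hI p hp x)
        by_cases hpq : p ∣ q
        · rw [if_pos hpq]
          split_ifs
          · linarith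
          · have := hpos p hp
            linarith
        · rw [if_neg hpq, add_zero]
          split_ifs with hc
          · have hp0 : 0 < p := (PP_prime hp).pos
            rcases hc with ⟨a, ha, a', ha', hne, he⟩ | ⟨a, ha, he⟩
            · have hd := rr_collision (PP_prime hp) hpq he
              have hmem : (a, a') ∈ (U ×ˢ U).filter (fun x => x.1 ≠ x.2) := by
                simp [ha, ha', hne]
              refine le_trans ?_ (Finset.single_le_sum (f := fun x : ℕ × ℕ =>
                (if p ∣ ((x.1 : ℤ) - x.2).natAbs then 1 / ((p : ℝ) - 1) else 0)) ?_ hmem)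
              · exact (if_pos hd).ge
              · intro x _
                exact hI p hp x
            · have h1 := rr_lt (q := q) hp0 a
              unfold ee at he
              rw [if_neg hpq] at he
              omega
          · exact hs
    _ = ∑ x ∈ (U ×ˢ U).filter (fun x => x.1 ≠ x.2),
          ∑ p ∈ (PP z z').filter (fun p : ℕ => p ∣ ((x.1 : ℤ) - x.2).natAbs),
            (1 : ℝ) / ((p : ℝ) - 1) +
          ∑ p ∈ (PP z z').filter (fun p : ℕ => p ∣ q), (1 : ℝ) / ((p : ℝ) - 1) := by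
        rw [Finset.sum_add_distrib, Finset.sum_comm, Finset.sum_filter (s := PP z z')
          (fun p : ℕ => p ∣ q)]
        congr 1
        refine Finset.sum_congr rfl (fun x _ => ?_)
        rw [Finset.sum_filter]
    _ ≤ ∑ x ∈ (U ×ˢ U).filter (fun x => x.1 ≠ x.2), t + Real.log q / (z * Real.log z) := by
        refine add_le_add (Finset.sum_le_sum (fun x hx => ?_)) ?_
        · have hx1 := (Finset.mem_filter.mp hx).1
          have hx2 := (Finset.mem_filter.mp hx).2
          have hx3 := Finset.mem_product.mp hx1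
          have ha := hU _ hx3.1
          have hb := hU _ hx3.2
          refine Pool.Agent.H647R2.ACNT.nt5 z z' _ N hz ?_ ?_
          · omega
          · omega
        · exact Pool.Agent.H647R2.ACNT.nt5 z z' q q hz hq le_rfl
    _ = ((U ×ˢ U).filter (fun x => x.1 ≠ x.2)).card * t + Real.log q / (z * Real.log z) := by
        rw [Finset.sum_const, nsmul_eq_mul]
    _ ≤ (K : ℝ) ^ 2 * t + Real.log q / (z * Real.log z) := by
        refine add_le_add (mul_le_mul_of_nonneg_right ?_ ht0) le_rfl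
        have h1 : ((U ×ˢ U).filter (fun x => x.1 ≠ x.2)).card ≤ K ^ 2 := by
          refine (Finset.card_filter_le _ _).trans ?_
          rw [Finset.card_product, sq]
          exact Nat.mul_le_mul hUK hUK
        exact_mod_cast h1

lemma etQ_le (K z z' D0 : ℕ) (E : ℝ) (hE : 0 ≤ E) (hK : K ≤ z) :
    ET K (PP z z') D0 (fun _ => E) ≤ E * (D0 : ℝ) ^ 2 := by
  have h := et_le K z z' D0 hK
  have h2 : ET K (PP z z') D0 (fun _ => E) = E * ET K (PP z z') D0 (fun _ => 1) := by
    unfold ET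
    rw [Finset.mul_sum]
    refine Finset.sum_congr rfl fun T _ => ?_
    ring
  rw [h2]
  exact mul_le_mul_of_nonneg_left h hE

end Pool.Agent.H474R2.LP
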