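import Pool.Agent.H474R2.LP.Equi

/-!
# Distribution of least primes in progressions, part 3 (helper474)
-/

set_option autoImplicit false

open Finset Filter

namespace Pool.Agent.H474R2.LP

open Pool.Agent.H410R2.AC Pool.Agent.H410R2.EN Pool.Agent.H747R2.EN6

/-- the asymptotic requirements -/
lemma asympQ (C c0 : ℝ) (hc0 : 0 < c0) (K : ℕ) (hK : 1 ≤ K) (X0 : ℝ) :
    ∀ᶠ N : ℕ in atTop, X0 ≤ (N : ℝ) ∧ 2 ≤ N ∧ K ≤ HH N ∧ 1024 ≤ HH N ∧ HH N ≤ zz N ∧
      (N : ℝ) ^ (1 / 10 : ℝ) * ((zz N : ℕ) : ℝ) ^ 2 ≤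
        ((N : ℝ) / (primorial (HH N)) / 2) / Real.log N ^ K ∧
      2 / (HH N : ℝ) + ((K : ℝ) ^ 2 * (Real.log N / (HH N * Real.log (HH N))) +
        Real.log N / (HH N * Real.log (HH N))) ≤ 1 / K ∧
      Real.log N / (HH N * Real.log (HH N)) ≤ 1 / 2 ∧
      ((zz N : ℝ) + 1) ≤ c0 / 4 * ((N : ℝ) / (primorial (HH N)) / 2) ∧
      C * Real.log N + 2 ≤ N ∧ 1 ≤ Real.log (N : ℝ) := by
  have hdd := dd_tendsto K
  have hK1 : (0 : ℝ) < 1 / (K + 1) := by positivity
  filter_upwards [tendsto_natCast_atTop_atTop.eventually_ge_atTop X0, eventually_ge_atTop 2,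
    tendsto_HH.eventually_ge_atTop ((K : ℝ)), tendsto_HH.eventually_ge_atTop 1024,
    log_pow_small K 2 (1 / 10) (by norm_num), log_pow_small 1 1 (1 / 10) (by norm_num),
    log_pow_small 0 (16 / c0) (1 / 10) (by norm_num),
    hdd.eventually (eventually_le_nhds hK1),
    tendsto_log_nat.eventually_ge_atTop 1,
    log_pow_small 1 (|C| + 2) 1 (by norm_num)] with N a1 a2 a3 a4 a5 a6 a7 a8 a9 a10
  have hN1 : (1 : ℝ) ≤ N := by exact_mod_cast (by omega : 1 ≤ N)
  have hN0 : (0 : ℝ) < N := by linarith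
  have hlog : 0 < Real.log N := by linarith
  have hz1 : ((zz N : ℕ) : ℝ) ≤ (N : ℝ) ^ (1 / 10 : ℝ) := Nat.floor_le (by positivity)
  have hx : (1 : ℝ) ≤ (N : ℝ) ^ (1 / 10 : ℝ) := Real.one_le_rpow hN1 (by norm_num)
  have hQN := Pool.Agent.H143R2.ACF.primorial_bound (N := N) (H := HH N) (by omega) (HH_le N)
  have hQ0 : (0 : ℝ) < primorial (HH N) := by exact_mod_cast primorial_pos _
  have hl : 0 < Real.log (HH N : ℝ) := Real.log_pos (by linarith)
  have hH0 : (0 : ℝ) < HH N := by linarith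
  have h5 : 0 ≤ Real.log N / (HH N * Real.log (HH N)) := by positivity
  have h6 : 0 ≤ 2 / (HH N : ℝ) := by positivity
  have hK0 : (1 : ℝ) ≤ K := by exact_mod_cast hK
  unfold dd at a8
  have hKK : 1 / ((K : ℝ) + 1) ≤ 1 / K := by
    apply one_div_le_one_div_of_le <;> linarith
  have hK2 : 1 / ((K : ℝ) + 1) ≤ 1 / 2 := by
    apply one_div_le_one_div_of_le <;> linarith
  refine ⟨a1, a2, by exact_mod_cast a3, by exact_mod_cast a4, ?_, ?_, ?_, ?_, ?_, ?_, a9⟩
  · apply Nat.floor_le_floor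
    rw [pow_one, one_mul] at a6
    linarith
  · rw [le_div_iff₀ (by positivity), le_div_iff₀ (by norm_num), le_div_iff₀ hQ0]
    calc (N : ℝ) ^ (1 / 10 : ℝ) * ((zz N : ℕ) : ℝ) ^ 2 * Real.log N ^ K * 2 * primorial (HH N)
        = (N : ℝ) ^ (1 / 10 : ℝ) * ((zz N : ℕ) : ℝ) ^ 2 * (2 * Real.log N ^ K) *
          primorial (HH N) := by ring
      _ ≤ (N : ℝ) ^ (1 / 10 : ℝ) * ((N : ℝ) ^ (1 / 10 : ℝ)) ^ 2 * (N : ℝ) ^ (1 / 10 : ℝ) *
          (N : ℝ) ^ (1 / 50 : ℝ) := by gcongr
      _ = (N : ℝ) ^ (1 / 10 + 1 / 10 + 1 / 10 + 1 / 10 + 1 / 50 : ℝ) := by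
          rw [Real.rpow_add hN0, Real.rpow_add hN0, Real.rpow_add hN0, Real.rpow_add hN0]
          ring
      _ ≤ (N : ℝ) ^ (1 : ℝ) := Real.rpow_le_rpow_of_exponent_le hN1 (by norm_num)
      _ = N := Real.rpow_one _
  · refine le_trans ?_ (a8.trans hKK)
    nlinarith
  · nlinarith
  · rw [pow_zero, mul_one] at a7
    have h1 : (16 : ℝ) ≤ c0 * (N : ℝ) ^ (1 / 10 : ℝ) := by
      rw [div_le_iff₀ hc0] at a7
      linarith
    have h2 : (N : ℝ) ^ (49 / 50 : ℝ) ≤ (N : ℝ) / primorial (HH N) := by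
      rw [le_div_iff₀ hQ0]
      calc (N : ℝ) ^ (49 / 50 : ℝ) * primorial (HH N)
          ≤ (N : ℝ) ^ (49 / 50 : ℝ) * (N : ℝ) ^ (1 / 50 : ℝ) := by gcongr
        _ = (N : ℝ) ^ (49 / 50 + 1 / 50 : ℝ) := by rw [Real.rpow_add hN0]
        _ = N := by norm_num
    have h3 : (N : ℝ) ^ (1 / 10 : ℝ) * (N : ℝ) ^ (1 / 10 : ℝ) ≤ (N : ℝ) ^ (49 / 50 : ℝ) := by
      rw [← Real.rpow_add hN0]
      exact Real.rpow_le_rpow_of_exponent_le hN1 (by norm_num)
    have h4 : 16 * (N : ℝ) ^ (1 / 10 : ℝ) ≤ c0 * (N : ℝ) ^ (49 / 50 : ℝ) := by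
      calc 16 * (N : ℝ) ^ (1 / 10 : ℝ) ≤ (c0 * (N : ℝ) ^ (1 / 10 : ℝ)) * (N : ℝ) ^ (1 / 10 : ℝ) := by
            gcongr
        _ = c0 * ((N : ℝ) ^ (1 / 10 : ℝ) * (N : ℝ) ^ (1 / 10 : ℝ)) := by ring
        _ ≤ c0 * (N : ℝ) ^ (49 / 50 : ℝ) := mul_le_mul_of_nonneg_left h3 hc0.le
    have h7 : c0 * (N : ℝ) ^ (49 / 50 : ℝ) ≤ c0 * ((N : ℝ) / primorial (HH N)) :=
      mul_le_mul_of_nonneg_left h2 hc0.le
    have h8 : c0 / 4 * ((N : ℝ) / (primorial (HH N)) / 2) = (c0 * ((N : ℝ) / primorial (HH N))) / 8 := by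
      ring
    rw [h8]
    linarith
  · rw [pow_one, Real.rpow_one] at a10
    have := le_abs_self C
    nlinarith

/-- the positions -/
def BB (q H k0 N b : ℕ) : Finset ℕ :=
  (Finset.Ico k0 (k0 + N)).filter (fun k => Nat.Coprime (b + k * q) (primorial H))

lemma sum_BB (q H k0 N : ℕ) :
    ∑ b ∈ range (primorial H), (BB q H k0 N b).card = N * (primorial H).totient := by
  unfold BB
  simp_rw [Finset.card_filter]
  rw [Finset.sum_comm]
  simp_rw [← Finset.card_filter]
  have h : ∀ k ∈ Finset.Ico k0 (k0 + N),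
      ((range (primorial H)).filter (fun b => Nat.Coprime (b + k * q) (primorial H))).card =
        (primorial H).totient := by
    intro k _
    rw [← count_coprime_int (primorial H) (-((k : ℤ) * q)) (primorial_pos _)]
    congr 1
    refine Finset.filter_congr fun b _ => ?_
    rw [← Nat.isCoprime_iff_coprime]
    push_cast
    rw [sub_neg_eq_add]
  rw [Finset.sum_congr rfl h, Finset.sum_const, Nat.card_Ico, smul_eq_mul]
  congr 1
  omega

lemma totient_le_G0 (q H : ℕ) : (primorial H).totient ≤ (G0 q H).card := by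
  rw [Nat.totient_eq_card_coprime]
  refine Finset.card_le_card ?_
  intro b hb
  rw [Finset.mem_filter] at hb
  refine Finset.mem_filter.2 ⟨hb.1, fun p hp hpb => ?_⟩
  have h1 := Nat.prime_of_mem_primeFactors (Finset.mem_filter.1 hp).1
  have h2 := (Nat.Prime.dvd_primorial_iff h1).2 (Finset.mem_filter.1 hp).2
  have h3 := Nat.dvd_gcd h2 hpb
  rw [hb.2] at h3
  exact h1.one_lt.ne' (Nat.dvd_one.1 h3)

lemma totient_mul_le_G0 (q H : ℕ) (hq : 0 < q) :
    (q.totient : ℝ) / q * primorial H ≤ ((G0 q H).card : ℝ) := by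
  have hq0 : (0 : ℝ) < q := by exact_mod_cast hq
  rw [G0_card, totient_eq q H hq]
  have h1 : 0 ≤ ∏ p ∈ DS q H, (1 - 1 / (p : ℝ)) := by
    refine Finset.prod_nonneg fun p hp => ?_
    have h1 := (Nat.prime_of_mem_primeFactors (Finset.mem_filter.1 hp).1).one_lt
    have h2 : (1 : ℝ) ≤ p := by exact_mod_cast h1.le
    have : 1 / (p : ℝ) ≤ 1 := by rw [div_le_one (by linarith)]; exact h2
    linarith
  have h2 := VD_le_one q H
  have h3 : (0 : ℝ) ≤ primorial H := Nat.cast_nonneg _
  rw [mul_div_cancel_left₀ _ hq0.ne', mul_comm]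
  refine mul_le_mul_of_nonneg_left ?_ h3
  calc (∏ p ∈ DS q H, (1 - 1 / (p : ℝ))) * VD q H ≤ (∏ p ∈ DS q H, (1 - 1 / (p : ℝ))) * 1 :=
        mul_le_mul_of_nonneg_left h2 h1
    _ = _ := mul_one _

/-- at least half of the admissible classes are good -/
lemma good (q H k0 N : ℕ) (C : ℝ) (hC : 0 ≤ C) (hq : 0 < q) (hl : 0 < Real.log q)
    (hHq : Real.log H ≤ Real.log q)
    (hN : (N : ℝ) ≤ C * ((q.totient : ℝ) / q) * Real.log q + 2) :
    ((G0 q H).card : ℝ) / 2 ≤ (((G0 q H).filter (fun b =>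
      ((BB q H k0 N b).card : ℝ) * Real.log H ≤ 2 * ((C + 2) * Real.log q))).card : ℝ) := by
  classical
  set R : ℝ := ((G0 q H).card : ℝ) with hR
  set Y : ℝ := (C + 2) * Real.log q with hY
  have hY0 : 0 < Y := by positivity
  set f : ℕ → ℝ := fun b => ((BB q H k0 N b).card : ℝ) * Real.log H with hf
  have hlog : 0 ≤ Real.log H := Real.log_natCast_nonneg H
  have hQ0 : (0 : ℝ) < primorial H := by exact_mod_cast primorial_pos _
  have hR0 : 0 ≤ R := Nat.cast_nonneg _
  have h3 : ((primorial H).totient : ℝ) * Real.log H ≤ primorial H := by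
    rw [← Pool.Agent.H647R2.ACNT.totient_primorial H]
    exact mul_le_mul_of_nonneg_left (log_le_Pi1 H) (Nat.cast_nonneg _)
  have h2 : ∑ b ∈ G0 q H, f b ≤ Y * R := by
    have h4 : ∑ b ∈ G0 q H, f b ≤ ∑ b ∈ range (primorial H), f b := by
      refine Finset.sum_le_sum_of_subset_of_nonneg (Finset.filter_subset _ _) fun b _ _ => ?_
      exact mul_nonneg (Nat.cast_nonneg _) hlog
    refine h4.trans ?_
    have h5 : ∑ b ∈ range (primorial H), f b = (N : ℝ) * ((primorial H).totient : ℝ) * Real.log H := by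
      rw [hf, ← Finset.sum_mul]
      congr 1
      exact_mod_cast sum_BB q H k0 N
    rw [h5]
    have h6 := totient_mul_le_G0 q H hq
    have h7 : ((primorial H).totient : ℝ) ≤ R := by
      rw [hR]; exact_mod_cast totient_le_G0 q H
    have hφ : (0 : ℝ) ≤ (q.totient : ℝ) / q := by positivity
    calc (N : ℝ) * ((primorial H).totient : ℝ) * Real.log H
        = (N : ℝ) * (((primorial H).totient : ℝ) * Real.log H) := by ring
      _ ≤ (C * ((q.totient : ℝ) / q) * Real.log q + 2) *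
          (((primorial H).totient : ℝ) * Real.log H) := by
          refine mul_le_mul_of_nonneg_right hN (by positivity)
      _ = C * Real.log q * (((q.totient : ℝ) / q) *
          (((primorial H).totient : ℝ) * Real.log H)) +
          2 * (((primorial H).totient : ℝ) * Real.log H) := by ring
      _ ≤ C * Real.log q * (((q.totient : ℝ) / q) * primorial H) + 2 * (R * Real.log q) := by
          refine add_le_add ?_ ?_
          · refine mul_le_mul_of_nonneg_left ?_ (by positivity)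
            exact mul_le_mul_of_nonneg_left h3 hφ
          · refine mul_le_mul_of_nonneg_left ?_ (by norm_num)
            exact mul_le_mul h7 hHq hlog hR0
      _ ≤ C * Real.log q * R + 2 * (R * Real.log q) := by
          refine add_le_add ?_ le_rfl
          exact mul_le_mul_of_nonneg_left h6 (by positivity)
      _ = Y * R := by rw [hY]; ring
  have h4 : (((G0 q H).filter (fun b => ¬ f b ≤ 2 * Y)).card : ℝ) * (2 * Y) ≤ Y * R := by
    calc (((G0 q H).filter (fun b => ¬ f b ≤ 2 * Y)).card : ℝ) * (2 * Y)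
        = ∑ _b ∈ (G0 q H).filter (fun b => ¬ f b ≤ 2 * Y), 2 * Y := by
          rw [Finset.sum_const, nsmul_eq_mul]
      _ ≤ ∑ b ∈ (G0 q H).filter (fun b => ¬ f b ≤ 2 * Y), f b := by
          refine Finset.sum_le_sum fun b hb => ?_
          exact (not_le.1 (Finset.mem_filter.1 hb).2).le
      _ ≤ ∑ b ∈ G0 q H, f b := by
          refine Finset.sum_le_sum_of_subset_of_nonneg (Finset.filter_subset _ _) fun b _ _ => ?_
          exact mul_nonneg (Nat.cast_nonneg _) hlog
      _ ≤ Y * R := h2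
  have h6 : (((G0 q H).filter (fun b => ¬ f b ≤ 2 * Y)).card : ℝ) ≤ R / 2 := by
    rw [le_div_iff₀ (by norm_num : (0 : ℝ) < 2)]
    have : Y * ((((G0 q H).filter (fun b => ¬ f b ≤ 2 * Y)).card : ℝ) * 2) ≤ Y * R := by linarith
    exact le_of_mul_le_mul_left this hY0
  have h7 : ((G0 q H).filter (fun b => f b ≤ 2 * Y)).card +
      ((G0 q H).filter (fun b => ¬ f b ≤ 2 * Y)).card = (G0 q H).card :=
    Finset.card_filter_add_card_filter_not _
  have h8 : (((G0 q H).filter (fun b => f b ≤ 2 * Y)).card : ℝ) +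
      (((G0 q H).filter (fun b => ¬ f b ≤ 2 * Y)).card : ℝ) = R := by
    rw [hR]; exact_mod_cast h7
  linarith

/-- the size bound -/
lemma hsizeQ (q H k0 N z b : ℕ) (C C1 : ℝ) (hq : 2 ≤ q) (hC : 1 ≤ C) (hC1 : C + 3 ≤ C1)
    (hk0 : (k0 : ℝ) ≤ (q : ℝ) ^ C) (hNq : N ≤ q) (m k : ℕ) (hm : m < q) (hw : ww q H b m ≠ 0)
    (hk : k < k0 + N) :
    (∏ p ∈ (PP H z).filter (fun p => m % p = rr q p k), (p : ℝ)) ≤ (q : ℝ) ^ C1 := by
  have hq0 : 0 < q := by omega
  have hcop : Nat.Coprime m q := by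
    unfold ww at hw
    by_contra h
    exact hw (if_neg fun h' => h h'.2)
  have hm0 : 0 < m := by
    rcases Nat.eq_zero_or_pos m with h | h
    · subst h
      rw [Nat.coprime_zero_left] at hcop
      omega
    · exact h
  have h1 : ∏ p ∈ (PP H z).filter (fun p => m % p = rr q p k), p ∣ m + k * q := by
    apply Finset.prod_primes_dvd
    · intro p hp
      exact (PP_prime (Finset.mem_filter.1 hp).1).prime
    · intro p hp
      rw [Finset.mem_filter] at hp
      have hpp := PP_prime hp.1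
      by_cases hpq : p ∣ q
      · exfalso
        have h2 := hp.2
        unfold rr at h2
        rw [if_pos hpq] at h2
        exact (coprime_iff q m hq0).1 hcop p (Nat.mem_primeFactors.2 ⟨hpp, hpq, hq0.ne'⟩)
          (Nat.dvd_of_mod_eq_zero h2)
      · exact (rr_iff hpp.pos hpq m k).1 hp.2
  have h2 := Nat.le_of_dvd (by positivity) h1
  have h3 : m + k * q ≤ q * (k0 + q + 1) := by nlinarith
  have h4 : (((∏ p ∈ (PP H z).filter (fun p => m % p = rr q p k), p : ℕ)) : ℝ) ≤
      q * (k0 + q + 1) := by exact_mod_cast h2.trans h3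
  push_cast at h4
  refine h4.trans ?_
  have hq2 : (2 : ℝ) ≤ q := by exact_mod_cast hq
  have hqp : (0 : ℝ) < q := by linarith
  have h5 : (q : ℝ) ≤ (q : ℝ) ^ C := by
    calc (q : ℝ) = (q : ℝ) ^ (1 : ℝ) := (Real.rpow_one _).symm
      _ ≤ (q : ℝ) ^ C := Real.rpow_le_rpow_of_exponent_le (by linarith) hC
  calc (q : ℝ) * (k0 + q + 1) ≤ q * ((q : ℝ) ^ C + (q : ℝ) ^ C + (q : ℝ) ^ C) := by
        refine mul_le_mul_of_nonneg_left ?_ hqp.le
        linarith
    _ = 3 * q * (q : ℝ) ^ C := by ring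
    _ ≤ (q : ℝ) ^ (3 : ℕ) * (q : ℝ) ^ C := by
        have h7 : (0 : ℝ) ≤ (q : ℝ) ^ 2 - 3 := by nlinarith
        have h8 := mul_nonneg hqp.le h7
        have : 3 * (q : ℝ) ≤ (q : ℝ) ^ (3 : ℕ) := by
          have h9 : (q : ℝ) * ((q : ℝ) ^ 2 - 3) = (q : ℝ) ^ (3 : ℕ) - 3 * q := by ring
          linarith
        gcongr
    _ = (q : ℝ) ^ (C + 3) := by
        rw [Real.rpow_add hqp, mul_comm]
        norm_num
    _ ≤ (q : ℝ) ^ C1 := Real.rpow_le_rpow_of_exponent_le (by linarith) hC1

/-- the residues all of whose positions have a small prime factor -/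
noncomputable def GG1 (q k0 N : ℕ) : Finset ℕ := by
  classical
  exact (range q).filter (fun n : ℕ => Nat.Coprime n q ∧
    ∀ k ∈ Finset.Ico k0 (k0 + N), ∃ p : ℕ, p.Prime ∧ p ≤ zz q ∧ p ∣ n + k * q)

open Classical in
theorem leastPrimes_of (hcore : CoreW) (C' : ℝ) :
    ∃ c : ℝ, 0 < c ∧ ∃ q₀ : ℕ, ∀ q : ℕ, q₀ ≤ q → ∀ M : ℕ, (M : ℝ) ≤ (q : ℝ) ^ C' →
      c * (q.totient : ℝ) ≤ (((range q).filter (fun b : ℕ => b.Coprime q ∧
        ∀ p : ℕ, p.Prime → p % q = b → M < p →
          (M : ℝ) + C' * (q.totient : ℝ) * Real.log q < p)).card : ℝ) := by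
  set C : ℝ := max C' 1 with hCdef
  have hC1 : 1 ≤ C := le_max_right _ _
  have hCC : C' ≤ C := le_max_left _ _
  obtain ⟨c0, hc0, K, hK, X0, hX0⟩ := hcore (2 * (C + 2)) (1 / 10) (by linarith) (by norm_num)
    (by norm_num)
  refine ⟨c0 / 4, by positivity, ?_⟩
  obtain ⟨q₀, hq₀⟩ := eventually_atTop.1 (asympQ C c0 hc0 K hK X0)
  refine ⟨q₀, fun q hq M hM' => ?_⟩
  obtain ⟨b1, b2, b3, b4, b5, b6, b7, b8, b9, b10, b11⟩ := hq₀ q hq
  have hq0 : 0 < q := by omega
  have hqr : (0 : ℝ) < q := by exact_mod_cast hq0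
  have hq1 : (1 : ℝ) ≤ q := by exact_mod_cast hq0
  have hlog : 0 < Real.log q := by linarith
  have hM : (M : ℝ) ≤ (q : ℝ) ^ C := hM'.trans (Real.rpow_le_rpow_of_exponent_le hq1 hCC)
  set H := HH q with hH
  set z := zz q with hz
  set Q := primorial H with hQ
  have hQ0 : 0 < Q := primorial_pos _
  have hQ0' : (0 : ℝ) < Q := by exact_mod_cast hQ0
  set L : ℝ := C * ((q.totient : ℝ) / q) * Real.log q with hL
  have hφ0 : (0 : ℝ) ≤ (q.totient : ℝ) / q := by positivity
  have hφ1 : (q.totient : ℝ) / q ≤ 1 := by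
    rw [div_le_one hqr]
    exact_mod_cast Nat.totient_le q
  have hL0 : 0 ≤ L := by positivity
  have hLC : L ≤ C * Real.log q := by
    calc L = C * Real.log q * ((q.totient : ℝ) / q) := by rw [hL]; ring
      _ ≤ C * Real.log q * 1 := mul_le_mul_of_nonneg_left hφ1 (by positivity)
      _ = _ := mul_one _
  set N : ℕ := ⌊L⌋₊ + 2 with hN
  have hNL : (N : ℝ) ≤ L + 2 := by
    rw [hN]; push_cast
    have := Nat.floor_le hL0
    linarith
  have hNq : N ≤ q := by
    have : (N : ℝ) ≤ q := by linarith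
    exact_mod_cast this
  set k0 : ℕ := M / q with hk0
  have hk0' : (k0 : ℝ) ≤ (q : ℝ) ^ C := by
    refine le_trans ?_ hM
    exact_mod_cast Nat.div_le_self M q
  have hHH := HH_le q
  rw [← hH] at hHH
  have hHq : Real.log H ≤ Real.log q := by
    have h1 : (H : ℝ) ≤ q := by
      have := Real.log_le_sub_one_of_pos hqr
      linarith
    have h2 : (0 : ℝ) < H := by exact_mod_cast (by omega : 0 < H)
    exact Real.log_le_log h2 h1
  have hVD : 1 / 2 ≤ VD q H := VD_ge q H hq0 (by omega) b8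
  have hAA : (q : ℝ) / Q / 2 ≤ AA q H := by
    unfold AA
    have : 0 ≤ (q : ℝ) / Q := by positivity
    nlinarith
  have hAA0 : 0 < AA q H := by
    refine lt_of_lt_of_le ?_ hAA
    positivity
  have hgood := good q H k0 N C (by linarith) hq0 hlog hHq hNL
  set Gd := (G0 q H).filter (fun b =>
      ((BB q H k0 N b).card : ℝ) * Real.log H ≤ 2 * ((C + 2) * Real.log q)) with hGd
  have hPe : (PP H z).erase 0 = PP H z :=
    Finset.erase_eq_of_notMem fun h => Nat.not_prime_zero (PP_prime h)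
  -- the classes
  have hclass : ∀ b ∈ Gd, c0 * AA q H ≤ (((GG1 q k0 N).filter (fun n => n % Q = b)).card : ℝ) := by
    intro b hb
    rw [hGd, Finset.mem_filter] at hb
    obtain ⟨hbG, hbB⟩ := hb
    have hBI : ∀ k ∈ BB q H k0 N b, k0 ≤ k ∧ k < k0 + N := by
      intro k hk
      exact Finset.mem_Ico.1 (Finset.mem_filter.1 hk).1
    have hmain := hX0 q b1 H z z 0 b3
      (by linarith) rfl rfl (BB q H k0 N b) (rr q) (kap q) (ee q) (ww q H b) q (AA q H)
      (fun _ => 2 ^ (DD q H).card)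
    rw [hPe] at hmain
    have hmain2 := hmain
      (by linarith)
      (fun p hp a _ => rr_lt (PP_prime hp).pos a)
      (dens q H z)
      (fun m => by unfold ww; split_ifs <;> norm_num)
      hAA0.le
      (equidQ q H z z b hq0 hbG)
      (by
        intro U hU hUK
        refine (dlQ_le hq0 U (fun a ha => hBI a (hU ha)) hUK (by omega)).trans ?_
        refine le_trans ?_ b7
        have hHl : 0 < (H : ℝ) * Real.log H := by
          have h1 : (1 : ℝ) < H := by exact_mod_cast (by omega : 1 < H)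
          have := Real.log_pos h1
          positivity
        have hNN : Real.log N ≤ Real.log q := by
          have h2 : (0 : ℝ) < N := by exact_mod_cast (by omega : 0 < N)
          exact Real.log_le_log h2 (by exact_mod_cast hNq)
        gcongr)
      (by
        refine (etQ_le K H z z _ (by positivity) b3).trans ?_
        refine le_trans (mul_le_mul_of_nonneg_right (two_pow_DD q H hq0 b4) (by positivity)) ?_
        refine b6.trans ?_
        exact div_le_div_of_nonneg_right hAA (by positivity))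
      (by
        intro m hm hw a ha
        left
        exact hsizeQ q H k0 N z b C _ b2 hC1 (by linarith) hk0' hNq m a hm hw (hBI a ha).2)
    refine hmain2.trans ?_
    have e1 : ∀ s : Finset ℕ, ∑ m ∈ s, ww q H b m =
        ((s.filter (fun m => m % Q = b ∧ Nat.Coprime m q)).card : ℝ) := by
      intro s
      unfold ww
      rw [← Finset.sum_filter, Finset.sum_const, nsmul_eq_mul, mul_one]
    rw [e1, Finset.filter_filter]
    have hsub : ((range q).filter (fun m => (∀ a ∈ BB q H k0 N b, ∃ p ∈ PP H z, m % p = rr q p a) ∧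
        (m % Q = b ∧ Nat.Coprime m q))) ⊆ (GG1 q k0 N).filter (fun n => n % Q = b) := by
      intro m hm
      rw [Finset.mem_filter] at hm
      obtain ⟨hm1, hm2, hm3, hm4⟩ := hm
      rw [Finset.mem_filter]
      refine ⟨?_, hm3⟩
      unfold GG1
      rw [Finset.mem_filter]
      refine ⟨hm1, hm4, fun k hk => ?_⟩
      by_cases hco : Nat.Coprime (b + k * q) Q
      · obtain ⟨p, hp, hpm⟩ := hm2 k (Finset.mem_filter.2 ⟨hk, hco⟩)
        refine ⟨p, PP_prime hp, PP_le hp, ?_⟩
        by_cases hpq : p ∣ q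
        · exfalso
          unfold rr at hpm
          rw [if_pos hpq] at hpm
          exact (coprime_iff q m hq0).1 hm4 p
            (Nat.mem_primeFactors.2 ⟨PP_prime hp, hpq, hq0.ne'⟩) (Nat.dvd_of_mod_eq_zero hpm)
        · exact (rr_iff (PP_prime hp).pos hpq m k).1 hpm
      · obtain ⟨p, hp, hpd⟩ := Nat.exists_prime_and_dvd hco
        have hp1 := hpd.trans (Nat.gcd_dvd_left _ _)
        have hp2 := hpd.trans (Nat.gcd_dvd_right _ _)
        have hp4 := Pool.Agent.H143R2.ACF.prime_dvd_primorial hp hp2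
        refine ⟨p, hp, hp4.trans b5, ?_⟩
        have h6 := Nat.mod_add_div m Q
        rw [hm3] at h6
        have h7 : m + k * q = (b + k * q) + Q * (m / Q) := by omega
        rw [h7]
        exact dvd_add hp1 (hp2.mul_right _)
    exact_mod_cast Finset.card_le_card hsub
  -- sum over the good classes
  have hGcard : c0 / 2 * (q.totient : ℝ) ≤ ((GG1 q k0 N).card : ℝ) := by
    have h1 : ∑ b ∈ Gd, ((GG1 q k0 N).filter (fun n => n % Q = b)).card ≤ (GG1 q k0 N).card := by
      rw [← Finset.card_biUnion]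
      · refine Finset.card_le_card ?_
        intro n hn
        rw [Finset.mem_biUnion] at hn
        obtain ⟨b, _, hb⟩ := hn
        exact (Finset.mem_filter.1 hb).1
      · intro x _ y _ hxy
        refine Finset.disjoint_left.2 ?_
        intro n hn hn'
        exact hxy ((Finset.mem_filter.1 hn).2.symm.trans (Finset.mem_filter.1 hn').2)
    have h2 : ∑ b ∈ Gd, c0 * AA q H ≤ ((GG1 q k0 N).card : ℝ) := by
      refine (Finset.sum_le_sum hclass).trans ?_
      exact_mod_cast h1
    rw [Finset.sum_const, nsmul_eq_mul] at h2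
    refine le_trans ?_ h2
    calc c0 / 2 * (q.totient : ℝ) = ((G0 q H).card : ℝ) / 2 * (c0 * AA q H) := by
          rw [← mass_eq q H hq0]; ring
      _ ≤ Gd.card * (c0 * AA q H) := by
          refine mul_le_mul_of_nonneg_right hgood (by positivity)
  -- the final count
  have hsub : GG1 q k0 N ⊆ ((range q).filter (fun b : ℕ => b.Coprime q ∧
        ∀ p : ℕ, p.Prime → p % q = b → M < p →
          (M : ℝ) + C' * (q.totient : ℝ) * Real.log q < p)) ∪ range (z + 1) := by
    intro n hn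
    unfold GG1 at hn
    rw [Finset.mem_filter] at hn
    obtain ⟨hn1, hn2, hn3⟩ := hn
    rw [Finset.mem_union]
    by_cases hnz : n ≤ z
    · right
      rw [Finset.mem_range]; omega
    · left
      rw [Finset.mem_filter]
      refine ⟨hn1, hn2, fun p hp hpq hMp => ?_⟩
      by_contra hcon
      push Not at hcon
      have hpk := Nat.mod_add_div p q
      rw [hpq] at hpk
      have hk1 : k0 ≤ p / q := Nat.div_le_div_right hMp.le
      have hk2 : p / q < k0 + N := by
        have h1 : ((p / q : ℕ) : ℝ) ≤ (p : ℝ) / q := Nat.cast_div_le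
        have h2 : (M : ℝ) / q < (k0 : ℝ) + 1 := by
          rw [div_lt_iff₀ hqr]
          have h3 : M < (k0 + 1) * q := by
            have := Nat.lt_div_mul_add (a := M) hq0
            rw [← hk0] at this
            nlinarith
          exact_mod_cast h3
        have h3 : (p : ℝ) / q ≤ (M : ℝ) / q + L := by
          rw [div_add' _ _ _ hqr.ne', div_le_div_iff_of_pos_right hqr]
          refine hcon.trans ?_
          have h4 : C' * (q.totient : ℝ) * Real.log q ≤ C * (q.totient : ℝ) * Real.log q := by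
            gcongr
          have h5 : L * q = C * (q.totient : ℝ) * Real.log q := by
            rw [hL]
            field_simp
          linarith
        have h4 := Nat.lt_floor_add_one L
        have h5 : ((p / q : ℕ) : ℝ) < ((k0 + N : ℕ) : ℝ) := by
          rw [hN]; push_cast
          push_cast at h1
          linarith
        exact_mod_cast h5
      obtain ⟨p', hp', hpz', hpd'⟩ := hn3 (p / q) (Finset.mem_Ico.2 ⟨hk1, hk2⟩)
      rw [mul_comm, hpk, Nat.prime_dvd_prime_iff_eq hp' hp] at hpd'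
      have : n ≤ p := by omega
      omega
  have h1 := (Finset.card_le_card hsub).trans (Finset.card_union_le _ _)
  rw [Finset.card_range] at h1
  have h2 : ((GG1 q k0 N).card : ℝ) ≤ ((((range q).filter (fun b : ℕ => b.Coprime q ∧
        ∀ p : ℕ, p.Prime → p % q = b → M < p →
          (M : ℝ) + C' * (q.totient : ℝ) * Real.log q < p)).card : ℝ)) + (z + 1) := by
    exact_mod_cast h1
  have h3 : (z : ℝ) + 1 ≤ c0 / 4 * (q.totient : ℝ) := by
    refine b9.trans ?_
    refine mul_le_mul_of_nonneg_left ?_ (by positivity)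
    rw [← mass_eq q H hq0]
    have hR1 : (1 : ℝ) ≤ ((G0 q H).card : ℝ) := by
      have h5 : 1 ≤ (primorial H).totient := Nat.totient_pos.2 (primorial_pos _)
      exact_mod_cast h5.trans (totient_le_G0 q H)
    calc (q : ℝ) / Q / 2 ≤ AA q H := hAA
      _ = 1 * AA q H := (one_mul _).symm
      _ ≤ ((G0 q H).card : ℝ) * AA q H := mul_le_mul_of_nonneg_right hR1 hAA0.le
  have h4 : c0 / 4 * (q.totient : ℝ) ≤ ((((range q).filter (fun b : ℕ => b.Coprime q ∧
        ∀ p : ℕ, p.Prime → p % q = b → M < p →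
          (M : ℝ) + C' * (q.totient : ℝ) * Real.log q < p)).card : ℝ)) := by linarith
  convert h4 using 3

end Pool.Agent.H474R2.LP
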