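import Mathlib
import Pool.Agent.H747R2.EN6a

/-!
# Distribution of least primes in progressions, part 1: sifting lemmas (helper474)
-/

set_option autoImplicit false

open Finset Filter

namespace Pool.Agent.H474R2.LP

open Pool.Agent.H410R2.AC Pool.Agent.H410R2.EN Pool.Agent.H747R2.EN6

/-- numbers in a class with no prime factor in `E` -/
lemma sift (N : ℕ) (δ : ℝ) (E : Finset ℕ) : ∀ (M r : ℕ), 0 < M → (∀ p ∈ E, p.Prime ∧ ¬ p ∣ M) →
    (∀ M' r' : ℕ, M' ∣ M * ∏ p ∈ E, p →
      |(((range N).filter (fun n => n ≡ r' [MOD M'])).card : ℝ) - (N : ℝ) / M'| ≤ δ) →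
    |(((range N).filter (fun n => n ≡ r [MOD M] ∧ ∀ p ∈ E, ¬ p ∣ n)).card : ℝ) -
      (N : ℝ) / M * ∏ p ∈ E, (1 - 1 / (p : ℝ))| ≤ 2 ^ E.card * δ := by
  induction E using Finset.induction_on with
  | empty =>
    intro M r hM _ h
    have := h M r (by simp)
    simpa using this
  | insert p E hp ih =>
    intro M r hM hE h
    obtain ⟨hpp, hpM⟩ := hE p (Finset.mem_insert_self _ _)
    have hp0 : (0 : ℝ) < p := by exact_mod_cast hpp.pos
    have hM0 : (0 : ℝ) < M := by exact_mod_cast hM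
    have hcop : Nat.Coprime M p := ((Nat.Prime.coprime_iff_not_dvd hpp).2 hpM).symm
    obtain ⟨r', h1, h2⟩ := Nat.chineseRemainder hcop r 0
    have i1 := ih M r hM (fun q hq => hE q (Finset.mem_insert_of_mem hq)) (fun M' r'' hM' => by
      refine h M' r'' (hM'.trans ?_)
      rw [Finset.prod_insert hp]
      exact mul_dvd_mul_left _ (Dvd.intro_left _ rfl))
    have i2 := ih (M * p) r' (Nat.mul_pos hM hpp.pos) (fun q hq => by
      obtain ⟨a1, a2⟩ := hE q (Finset.mem_insert_of_mem hq)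
      refine ⟨a1, fun hd => ?_⟩
      rcases (Nat.Prime.dvd_mul a1).1 hd with h3 | h3
      · exact a2 h3
      · rw [Nat.prime_dvd_prime_iff_eq a1 hpp] at h3
        exact hp (h3 ▸ hq)) (fun M' r'' hM' => by
      refine h M' r'' (hM'.trans ?_)
      rw [Finset.prod_insert hp, mul_assoc])
    have e1 : ((range N).filter (fun n => n ≡ r [MOD M] ∧ ∀ q ∈ E, ¬ q ∣ n)).card =
        ((range N).filter (fun n => n ≡ r [MOD M] ∧ ∀ q ∈ insert p E, ¬ q ∣ n)).card +
        ((range N).filter (fun n => n ≡ r' [MOD M * p] ∧ ∀ q ∈ E, ¬ q ∣ n)).card := by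
      rw [← Finset.card_filter_add_card_filter_not (s := (range N).filter
        (fun n => n ≡ r [MOD M] ∧ ∀ q ∈ E, ¬ q ∣ n)) (fun n => ¬ p ∣ n),
        Finset.filter_filter, Finset.filter_filter]
      congr 2
      · refine Finset.filter_congr fun n _ => ?_
        rw [Finset.forall_mem_insert]
        tauto
      · refine Finset.filter_congr fun n _ => ?_
        rw [not_not, ← Nat.modEq_and_modEq_iff_modEq_mul hcop]
        have e1 : n ≡ r' [MOD M] ↔ n ≡ r [MOD M] :=
          ⟨fun h => h.trans h1, fun h => h.trans h1.symm⟩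
        have e2 : n ≡ r' [MOD p] ↔ p ∣ n := by
          rw [← Nat.modEq_zero_iff_dvd]
          exact ⟨fun h => h.trans h2, fun h => h.trans h2.symm⟩
        rw [e1, e2]
        tauto
    have e2 : (((range N).filter (fun n => n ≡ r [MOD M] ∧ ∀ q ∈ insert p E, ¬ q ∣ n)).card : ℝ) =
        (((range N).filter (fun n => n ≡ r [MOD M] ∧ ∀ q ∈ E, ¬ q ∣ n)).card : ℝ) -
        (((range N).filter (fun n => n ≡ r' [MOD M * p] ∧ ∀ q ∈ E, ¬ q ∣ n)).card : ℝ) := by
      rw [e1]; push_cast; ring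
    rw [e2, Finset.prod_insert hp, Finset.card_insert_of_notMem hp, pow_succ]
    have e3 : (N : ℝ) / M * ((1 - 1 / (p : ℝ)) * ∏ q ∈ E, (1 - 1 / (q : ℝ))) =
        (N : ℝ) / M * ∏ q ∈ E, (1 - 1 / (q : ℝ)) -
        (N : ℝ) / ((M * p : ℕ) : ℝ) * ∏ q ∈ E, (1 - 1 / (q : ℝ)) := by
      push_cast
      field_simp
    rw [e3]
    rw [abs_le] at i1 i2 ⊢
    constructor <;> nlinarith [i1.1, i1.2, i2.1, i2.2]

lemma card_modEq_exact (N M r : ℕ) (hM : 0 < M) (h : M ∣ N) :
    |(((range N).filter (fun n => n ≡ r [MOD M])).card : ℝ) - (N : ℝ) / M| ≤ 0 := by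
  rw [← Nat.count_eq_card_filter_range, Nat.count_modEq_card _ hM, Nat.mod_eq_zero_of_dvd h]
  simp only [not_lt_zero, if_false, add_zero]
  rw [Nat.cast_div h (by exact_mod_cast hM.ne')]
  simp

/-- the large prime factors of `q` -/
def DD (q H : ℕ) : Finset ℕ := q.primeFactors.filter (fun p => H < p)

/-- the small prime factors of `q` -/
def DS (q H : ℕ) : Finset ℕ := q.primeFactors.filter (fun p => p ≤ H)

/-- the sifting density of the large prime factors -/
noncomputable def VD (q H : ℕ) : ℝ := ∏ p ∈ DD q H, (1 - 1 / (p : ℝ))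

/-- the admissible classes modulo the primorial -/
def G0 (q H : ℕ) : Finset ℕ := (range (primorial H)).filter (fun b => ∀ p ∈ DS q H, ¬ p ∣ b)

lemma G0_card (q H : ℕ) :
    ((G0 q H).card : ℝ) = (primorial H : ℝ) * ∏ p ∈ DS q H, (1 - 1 / (p : ℝ)) := by
  have h := sift (primorial H) 0 (DS q H) 1 0 one_pos (fun p hp => by
      have h1 := Nat.prime_of_mem_primeFactors (Finset.mem_filter.1 hp).1
      exact ⟨h1, fun h2 => h1.one_lt.ne' (Nat.dvd_one.1 h2)⟩) (fun M' r' hM' => by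
      have hd : ∏ p ∈ DS q H, p ∣ primorial H := by
        apply Finset.prod_primes_dvd
        · intro p hp
          exact (Nat.prime_of_mem_primeFactors (Finset.mem_filter.1 hp).1).prime
        · intro p hp
          have h1 := Nat.prime_of_mem_primeFactors (Finset.mem_filter.1 hp).1
          have h2 := (Finset.mem_filter.1 hp).2
          exact (Nat.Prime.dvd_primorial_iff h1).2 h2
      rw [one_mul] at hM'
      exact card_modEq_exact _ _ _ (Nat.pos_of_dvd_of_pos (hM'.trans hd) (primorial_pos _))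
        (hM'.trans hd))
  rw [mul_zero] at h
  have h2 := abs_nonpos_iff.1 h
  have h3 : ((range (primorial H)).filter (fun n => n ≡ 0 [MOD 1] ∧ ∀ p ∈ DS q H, ¬ p ∣ n)) =
      G0 q H := by
    unfold G0
    refine Finset.filter_congr fun n _ => ?_
    simp [Nat.modEq_one]
  rw [h3] at h2
  push_cast at h2
  rw [div_one] at h2
  linarith

lemma totient_eq (q H : ℕ) (hq : 0 < q) :
    (q.totient : ℝ) = q * ((∏ p ∈ DS q H, (1 - 1 / (p : ℝ))) * VD q H) := by
  have h1 := Nat.totient_eq_mul_prod_factors q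
  have h2 : (q.totient : ℝ) = q * ∏ p ∈ q.primeFactors, (1 - 1 / (p : ℝ)) := by
    have h3 : ((q.totient : ℚ) : ℝ) = ((q * ∏ p ∈ q.primeFactors, (1 - (p : ℚ)⁻¹) : ℚ) : ℝ) := by
      rw [h1]
    push_cast at h3
    rw [h3]
    simp only [one_div]
  rw [h2]
  congr 1
  unfold VD DD DS
  rw [← Finset.prod_filter_mul_prod_filter_not q.primeFactors (fun p => p ≤ H)]
  congr 1
  refine Finset.prod_congr ?_ fun _ _ => rfl
  refine Finset.filter_congr fun p _ => ?_
  exact not_le

/-- the mass of a class -/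
noncomputable def AA (q H : ℕ) : ℝ := (q : ℝ) / primorial H * VD q H

lemma mass_eq (q H : ℕ) (hq : 0 < q) : ((G0 q H).card : ℝ) * AA q H = q.totient := by
  rw [G0_card, totient_eq q H hq]
  unfold AA
  have h1 : (0 : ℝ) < primorial H := by exact_mod_cast primorial_pos _
  field_simp

lemma VD_nonneg (q H : ℕ) : 0 ≤ VD q H := by
  unfold VD
  refine Finset.prod_nonneg fun p hp => ?_
  have h1 := (Nat.prime_of_mem_primeFactors (Finset.mem_filter.1 hp).1).one_lt
  have h2 : (1 : ℝ) ≤ p := by exact_mod_cast h1.le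
  have : 1 / (p : ℝ) ≤ 1 := by rw [div_le_one (by linarith)]; exact h2
  linarith

lemma VD_le_one (q H : ℕ) : VD q H ≤ 1 := by
  unfold VD
  refine Finset.prod_le_one (fun p hp => ?_) (fun p hp => ?_)
  · have h1 := (Nat.prime_of_mem_primeFactors (Finset.mem_filter.1 hp).1).one_lt
    have h2 : (1 : ℝ) ≤ p := by exact_mod_cast h1.le
    have : 1 / (p : ℝ) ≤ 1 := by rw [div_le_one (by linarith)]; exact h2
    linarith
  · have : (0 : ℝ) ≤ 1 / (p : ℝ) := by positivity
    linarith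

lemma DD_sum (q H : ℕ) (hq : 0 < q) (hH : 2 ≤ H) :
    ∑ p ∈ DD q H, (1 : ℝ) / ((p : ℝ) - 1) ≤ Real.log q / (H * Real.log H) := by
  have h := Pool.Agent.H647R2.ACNT.nt5 H q q q hH hq le_rfl
  refine le_trans (le_of_eq ?_) h
  refine Finset.sum_congr ?_ fun _ _ => rfl
  ext p
  unfold DD
  rw [Finset.mem_filter, Finset.mem_filter, mem_PP, Nat.mem_primeFactors]
  constructor
  · rintro ⟨⟨a1, a2, a3⟩, a4⟩
    exact ⟨⟨a1, a4, Nat.le_of_dvd hq a2⟩, a2⟩
  · rintro ⟨⟨a1, a2, a3⟩, a4⟩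
    exact ⟨⟨a1, a4, hq.ne'⟩, a2⟩

lemma one_sub_sum_le (E : Finset ℕ) (f : ℕ → ℝ) (h0 : ∀ p ∈ E, 0 ≤ f p) (h1 : ∀ p ∈ E, f p ≤ 1) :
    1 - ∑ p ∈ E, f p ≤ ∏ p ∈ E, (1 - f p) := by
  induction E using Finset.induction_on with
  | empty => simp
  | insert p E hp ih =>
    have i1 := ih (fun q hq => h0 q (Finset.mem_insert_of_mem hq))
      (fun q hq => h1 q (Finset.mem_insert_of_mem hq))
    have a1 := h0 p (Finset.mem_insert_self _ _)
    have a2 := h1 p (Finset.mem_insert_self _ _)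
    have a3 : ∏ p ∈ E, (1 - f p) ≤ 1 := by
      refine Finset.prod_le_one (fun q hq => ?_) (fun q hq => ?_)
      · have := h1 q (Finset.mem_insert_of_mem hq); linarith
      · have := h0 q (Finset.mem_insert_of_mem hq); linarith
    rw [Finset.sum_insert hp, Finset.prod_insert hp]
    nlinarith

lemma VD_ge (q H : ℕ) (hq : 0 < q) (hH : 2 ≤ H) (h : Real.log q / (H * Real.log H) ≤ 1 / 2) :
    1 / 2 ≤ VD q H := by
  have h1 : 1 - ∑ p ∈ DD q H, (1 : ℝ) / (p : ℝ) ≤ VD q H := by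
    unfold VD
    apply one_sub_sum_le
    · intro p _; positivity
    · intro p hp
      have h1 := (Nat.prime_of_mem_primeFactors (Finset.mem_filter.1 hp).1).one_lt
      have h2 : (1 : ℝ) ≤ p := by exact_mod_cast h1.le
      rw [div_le_one (by linarith)]; exact h2
  have h2 : ∑ p ∈ DD q H, (1 : ℝ) / (p : ℝ) ≤ ∑ p ∈ DD q H, (1 : ℝ) / ((p : ℝ) - 1) := by
    refine Finset.sum_le_sum fun p hp => ?_
    have h1 := (Nat.prime_of_mem_primeFactors (Finset.mem_filter.1 hp).1).one_lt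
    have h2 : (2 : ℝ) ≤ p := by exact_mod_cast h1
    apply one_div_le_one_div_of_le <;> linarith
  have h3 := DD_sum q H hq hH
  linarith

/-- `2` to the number of large prime factors -/
lemma two_pow_DD (q H : ℕ) (hq : 0 < q) (hH : 1024 ≤ H) :
    (2 : ℝ) ^ (DD q H).card ≤ (q : ℝ) ^ (1 / 10 : ℝ) := by
  have h1 : (H : ℝ) ^ (DD q H).card ≤ q := by
    have h2 : H ^ (DD q H).card ≤ ∏ p ∈ DD q H, p := by
      rw [← Finset.prod_const]
      exact Finset.prod_le_prod' fun p hp => (Finset.mem_filter.1 hp).2.le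
    have h3 : ∏ p ∈ DD q H, p ∣ q := by
      apply Finset.prod_primes_dvd
      · intro p hp
        exact (Nat.prime_of_mem_primeFactors (Finset.mem_filter.1 hp).1).prime
      · intro p hp
        exact Nat.dvd_of_mem_primeFactors (Finset.mem_filter.1 hp).1
    exact_mod_cast h2.trans (Nat.le_of_dvd hq h3)
  have h4 : (2 : ℝ) ≤ (H : ℝ) ^ (1 / 10 : ℝ) := by
    have h5 : ((1024 : ℝ)) ^ (1 / 10 : ℝ) = 2 := by
      rw [show (1024 : ℝ) = (2 : ℝ) ^ (10 : ℝ) by norm_num, ← Real.rpow_mul (by norm_num)]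
      norm_num
    rw [← h5]
    apply Real.rpow_le_rpow (by norm_num) (by exact_mod_cast hH) (by norm_num)
  calc (2 : ℝ) ^ (DD q H).card ≤ ((H : ℝ) ^ (1 / 10 : ℝ)) ^ (DD q H).card := by gcongr
    _ = ((H : ℝ) ^ (DD q H).card) ^ (1 / 10 : ℝ) := by
        rw [← Real.rpow_natCast, ← Real.rpow_mul (by positivity), mul_comm,
          Real.rpow_mul (by positivity), Real.rpow_natCast]
    _ ≤ (q : ℝ) ^ (1 / 10 : ℝ) := by
        apply Real.rpow_le_rpow (by positivity) h1 (by norm_num)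

end Pool.Agent.H474R2.LP
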